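import Mathlib
import Pool.Agent.H.MP_d77547_co.C

namespace Pool.Agent.Results.MP_d77547_co.Yes

open Finset Pool.Agent.H.MP_d77547_co

/-- The normalised one-row Jack polynomial in `N` variables, with coefficients in `ℚ[α]`
(`α = Polynomial.X`). In a row of length `p`, the cell in column `c` (from `0`) has
arm `p - 1 - c`. -/
noncomputable def jack (N n : ℕ) : MvPolynomial (Fin N) (Polynomial ℚ) :=
  ∑ μ : n.Partition,
    MvPolynomial.C
      (Polynomial.C ((n.factorial : ℚ) / ((μ.parts.map Nat.factorial).prod : ℕ)) *
        (μ.parts.map (fun p => ∏ c ∈ range p,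
          (Polynomial.X + ((p - 1 - c : ℕ) : Polynomial ℚ)))).prod) *
      MvPolynomial.msymm (Fin N) (Polynomial ℚ) μ

theorem result (n : ℕ) (_hn : 1 ≤ n) (N : ℕ) :
    jack N n =
      ∑ π : Equiv.Perm (Fin n), ∑ β : Finpartition (univ : Finset (Fin n)),
        MvPolynomial.C (∏ k ∈ range β.parts.card, (Polynomial.X - (k : Polynomial ℚ))) *
          fund (Polynomial ℚ) N n (des n (insTab (word (refill β π)))) := by
  have key : ∀ d : ℕ, MvPolynomial.map (Polynomial.evalRingHom ((d + 1 : ℕ) : ℚ)) (jack N n) =
      MvPolynomial.map (Polynomial.evalRingHom ((d + 1 : ℕ) : ℚ))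
      (∑ π : Equiv.Perm (Fin n), ∑ β : Finpartition (univ : Finset (Fin n)),
        MvPolynomial.C (∏ k ∈ range β.parts.card, (Polynomial.X - (k : Polynomial ℚ))) *
          fund (Polynomial ℚ) N n (des n (insTab (word (refill β π))))) := by
    intro d
    refine Eq.trans ?_ ((lhs_eval (n := n) (d := d)).trans ((rhs_eval (n := n) (d := d) (R := ℚ)).symm.trans ?_))
    · simp only [jack, map_sum, map_mul, MvPolynomial.map_C]
      refine sum_congr rfl (fun μ _ => ?_)
      congr 1
      · congr 1
        · simp
        · congr 1
          rw [map_multiset_prod, Multiset.map_map]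
          congr 1
          refine Multiset.map_congr rfl (fun p _ => ?_)
          simp [Polynomial.eval_prod]
      · simp only [MvPolynomial.msymm, map_sum, map_multiset_prod, Multiset.map_map]
        simp
    · simp only [map_sum, map_mul, MvPolynomial.map_C]
      refine sum_congr rfl (fun π _ => sum_congr rfl (fun β _ => ?_))
      congr 1
      · rw [← map_natCast (MvPolynomial.C : ℚ →+* MvPolynomial (Fin N) ℚ)]
        congr 1
        rw [← descPochhammer_eval_eq_descFactorial, descPochhammer_eval_eq_prod_range]
        simp [Polynomial.eval_prod]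
      · simp [fund, map_sum, map_prod]
  ext1 m
  refine Polynomial.eq_of_infinite_eval_eq _ _ ?_
  refine Set.infinite_of_injective_forall_mem (f := fun d : ℕ => ((d + 1 : ℕ) : ℚ)) ?_ ?_
  · intro a b h
    simpa using h
  · intro d
    have := congrArg (MvPolynomial.coeff m) (key d)
    rw [MvPolynomial.coeff_map, MvPolynomial.coeff_map] at this
    exact this

end Pool.Agent.Results.MP_d77547_co.Yes
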